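import Pool.Agent.H23.FI.Matlis

/-!
# Torsion-free FI-modules of finite uniform dimension over commutative Noetherian rings

Q1 asks whether torsion-free indecomposable injective FI-modules over a field are degree-wise finite.
The first part of the theorem says yes. The second part says what remains true over an arbitrary
commutative Noetherian ring `k`, and without injectivity.

* If a torsion-free FI-module `V` over `k` contains no infinite direct sum of nonzero FI-submodules,
  then no `k`-module `V_n` contains an infinite direct sum of nonzero submodules. If `k` is Artinian,
  then the modules `V_n` are finitely generated.
* Indecomposable injective FI-modules have this property (any two nonzero submodules meet). If `V` is a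
  torsion-free one, then there is a prime ideal `p` of `k` such that in all modules `V_n` the elements
  outside `p` act bijectively and every element is killed by a power of `p`.

The definitions are in `Pool/Agent/H23/FI/Def.lean`.

Idea of the proof. The elements of `V` form a module `J` over the monoid of the injections of `ℕ`, in
which every element is determined by finitely many values of the injections (a tame module). Finitely
generated tame modules over Noetherian rings are Noetherian (leading coefficient ideals and Higman's
lemma), over Artinian rings they have finite length and finitely generated parts of each degree. If `J`
has finite uniform dimension, this gives the claim for Artinian rings, by looking at homomorphisms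
from simple modules. For Noetherian rings infinitely many independent elements of `V_n` may be chosen
with prime annihilators. If one prime `p` occurs infinitely often, then pass to the vector spaces over
the residue field of `p`. If infinitely many primes occur, then they produce independent submodules
of `J`, because an element with the annihilator `p` generates a submodule which contains a nonzero one
all of whose nonzero elements have the annihilator `p`.
-/

set_option autoImplicit false

open CategoryTheory Pool.Agent.H23.FI

universe u v

namespace Pool.Agent.Results.MP_b23a2c_al.UniformDimension

theorem result :
    -- Q1: torsion-free indecomposable injective FI-modules over a field are degree-wise finite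
    (∀ (k : Type u) [Field k] (V : FI ⥤ ModuleCat.{v} k), Injective V → TorsionFree V →
      IsIndecomposable V → ∀ a, FiniteDimensional k (V.obj a)) ∧
    -- commutative Noetherian rings
    ∀ (k : Type u) [CommRing k] [IsNoetherianRing k] (V : FI ⥤ ModuleCat.{v} k), TorsionFree V →
      (FiniteUniformDim V → ∀ a, FiniteUniformDimMod k (V.obj a) ∧
        (IsArtinianRing k → Module.Finite k (V.obj a))) ∧
      (Injective V → IsIndecomposable V → FiniteUniformDim V ∧ ∃ p : Ideal k, p.IsPrime ∧ ∀ a,
        (∀ c, c ∉ p → Function.Bijective fun x : V.obj a => c • x) ∧
        ∀ x : V.obj a, ∃ m, ∀ c ∈ p ^ m, c • x = 0) := by
  refine ⟨fun k _ V hV tf hI a => ?_, fun k _ _ V tf => ⟨fun hf a => ⟨fun B hB => ?_, fun _ => ?_⟩,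
    fun hV hI => ⟨indec_fud hI, ?_⟩⟩⟩
  · exact main_art V tf (indec_fud hI) a.n
  · exact main_noeth V tf hf a.n B hB
  · exact main_art V tf hf a.n
  · obtain ⟨p, hp, h⟩ := matlis tf hI
    exact ⟨p, hp, fun a => h a.n⟩

end Pool.Agent.Results.MP_b23a2c_al.UniformDimension
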